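import Pool.Agent.H79.Asym2

/-! Almost symmetric and nearly Gorenstein numerical semigroups of fixed embedding dimension
`e ≥ 8` have unbounded type. -/

set_option autoImplicit false

namespace Pool.Agent.Results.MP_9b7a67_al.UnboundedType

open Pool.Agent.H79.Asym

/-- The semigroup viewed inside the integers. -/
def toZ (S : AddSubmonoid ℕ) : Set ℤ := ((↑) : ℕ → ℤ) '' (S : Set ℕ)

/-- The embedding dimension: the number of minimal generators (nonzero elements that are not a sum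
of two nonzero elements). -/
noncomputable def edim (S : AddSubmonoid ℕ) : ℕ :=
  {s : ℕ | s ∈ S ∧ s ≠ 0 ∧ ¬ ∃ a ∈ S, ∃ b ∈ S, a ≠ 0 ∧ b ≠ 0 ∧ a + b = s}.ncard

/-- The maximal ideal `M = S \ {0}`. -/
def maxId (S : AddSubmonoid ℕ) : Set ℤ := toZ S \ {0}

/-- The pseudo-Frobenius numbers. -/
def PF (S : AddSubmonoid ℕ) : Set ℤ := {x | x ∉ toZ S ∧ ∀ m ∈ maxId S, x + m ∈ toZ S}

/-- The standard canonical ideal, for the Frobenius number `F`. -/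
def canon (S : AddSubmonoid ℕ) (F : ℤ) : Set ℤ := {x | F - x ∉ toZ S}

/-- `K + M ⊆ M`. -/
def AlmostSym (S : AddSubmonoid ℕ) (F : ℤ) : Prop :=
  ∀ x ∈ canon S F, ∀ m ∈ maxId S, x + m ∈ maxId S

/-- `M ⊆ K + (S - K)`. -/
def NearlyGor (S : AddSubmonoid ℕ) (F : ℤ) : Prop :=
  ∀ m ∈ maxId S, ∃ x ∈ canon S F, ∃ z : ℤ, (∀ y ∈ canon S F, z + y ∈ toZ S) ∧ m = x + z

theorem result : ∀ e : ℕ, 8 ≤ e → ∀ N : ℕ, ∃ S : AddSubmonoid ℕ, ∃ F : ℤ,
    (S : Set ℕ)ᶜ.Finite ∧ S ≠ ⊤ ∧ IsGreatest (toZ S)ᶜ F ∧ edim S = e ∧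
      NearlyGor S F ∧ (PF S).Finite ∧ N ≤ (PF S).ncard := by
  intro e he N
  obtain ⟨r, rfl⟩ : ∃ r, e = 8 + r := ⟨e - 8, by omega⟩
  have hn : 2 ≤ r + N + 2 := by omega
  have hr : r ≤ r + N + 2 := by omega
  have hn' : (2:ℤ) ≤ ((r + N + 2 : ℕ) : ℤ) := by exact_mod_cast hn
  have hr' : (r:ℤ) ≤ ((r + N + 2 : ℕ) : ℤ) := by exact_mod_cast hr
  have hZ : ∀ x, x ∈ toZ (HN (r+N+2) r hn hr) ↔ InH ((r + N + 2 : ℕ) : ℤ) r x := fun x => mem_img
  have hP := PH_not hn' hr'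
  have hPpos : 0 < PP ((r + N + 2 : ℕ) : ℤ) := by
    by_contra hc
    have e1 := el_pos hn' (Or.inl rfl) (j := 0) le_rfl
    exact el_notG hn' (Or.inl rfl) (j := 0) le_rfl (by omega) (big hn' (by omega))
  have hAS : AlmostSym (HN (r+N+2) r hn hr) (PP ((r + N + 2 : ℕ) : ℤ)) := by
    rintro x hx m ⟨hm, hm0⟩
    have hx' : ¬ InH ((r + N + 2 : ℕ) : ℤ) r (PP ((r + N + 2 : ℕ) : ℤ) - x) := by
      rw [← hZ]; exact hx
    rw [hZ] at hm
    have hm1 : m ≠ 0 := hm0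
    have hmp := hm.nonneg hn'
    have hx0 : 0 ≤ x := by
      by_contra hc
      exact hx' (Or.inl (big hn' (by omega)))
    refine ⟨?_, fun h => ?_⟩
    · rw [hZ]
      by_cases h : InH ((r + N + 2 : ℕ) : ℤ) r x
      · exact h.add hn' hr' hm
      · exact as_core hn' hr' h hx' hm hm1
    · have : x + m = 0 := h
      omega
  have hPF : PF (HN (r+N+2) r hn hr) = {x : ℤ | ¬ InH ((r + N + 2 : ℕ) : ℤ) r x ∧
      ∀ s, InH ((r + N + 2 : ℕ) : ℤ) r s → s ≠ 0 → InH ((r + N + 2 : ℕ) : ℤ) r (x + s)} := by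
    ext x
    simp only [PF, maxId, Set.mem_ofPred_eq, Set.mem_sdiff, hZ, Set.mem_singleton_iff, and_imp]
  refine ⟨HN (r+N+2) r hn hr, PP ((r + N + 2 : ℕ) : ℤ), HN_cofinite, ?_, ⟨?_, ?_⟩, HN_edim,
    ?_, ?_, ?_⟩
  · intro h
    apply hP
    have h1 : (PP ((r + N + 2 : ℕ) : ℤ)).toNat ∈ HN (r+N+2) r hn hr := by rw [h]; trivial
    rw [mem_HN, Int.toNat_of_nonneg hPpos.le] at h1
    exact h1
  · rw [Set.mem_compl_iff, hZ]; exact hP
  · intro y hy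
    rw [Set.mem_compl_iff, hZ] at hy
    by_contra hc
    exact hy (Or.inl (big hn' (by omega)))
  · intro m hm
    refine ⟨0, ?_, m, fun y hy => ?_, by simp⟩
    · show _ ∉ _
      rw [hZ, sub_zero]; exact hP
    · rw [add_comm m y]; exact (hAS y hy m hm).1
  · rw [hPF]; exact pfZ_finite hn'
  · rw [hPF]; exact pfZ_card hn' (by push_cast; omega)

end Pool.Agent.Results.MP_9b7a67_al.UnboundedType
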